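import Pool.Agent.MP_bd94e8_al.H89.Spec

/-! Row VALSMALL: supports of the objects of a valued piece. -/

set_option autoImplicit false
set_option linter.unusedSectionVars false

namespace Pool.Agent.MP_bd94e8_al.H89

open Module Function

namespace ValSmallA

variable {k F : Type} [Field k] [Field F] [Algebra k F] {Pt ι Ω : Type} [Fintype Pt]
  [DecidableEq Pt] {V V' : Type} [AddCommGroup V] [Module F V] [AddCommGroup V'] [Module F V']

theorem act_mul (b b' : Matrix Pt Pt F) (u : Pt → V) : act (b * b') u = act b (act b' u) := by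
  funext q
  simp only [act, Matrix.mul_apply, Finset.sum_smul, Finset.smul_sum, mul_smul]
  exact Finset.sum_comm

theorem act_one (u : Pt → V) : act (1 : Matrix Pt Pt F) u = u := by
  funext q
  simp [act, Matrix.one_apply]

theorem act_zero (u : Pt → V) : act (0 : Matrix Pt Pt F) u = 0 := by
  funext q
  simp [act]

theorem act_sum {I : Type} (s : Finset I) (b : I → Matrix Pt Pt F) (u : Pt → V) :
    act (∑ i ∈ s, b i) u = ∑ i ∈ s, act (b i) u := by
  funext q
  simp only [act, Matrix.sum_apply, Finset.sum_smul, Finset.sum_apply]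
  exact Finset.sum_comm

/-- The action as an additive map. -/
def actH (b : Matrix Pt Pt F) : (Pt → V) →+ (Pt → V) where
  toFun := act b
  map_zero' := by funext q; simp [act]
  map_add' u v := by funext q; simp [act, Finset.sum_add_distrib]

theorem closure_act {s : Set (Pt → V)} {W : AddSubgroup (Pt → V')} (f : (Pt → V) →+ (Pt → V'))
    (h : ∀ w ∈ s, f w ∈ W) {u : Pt → V} (hu : u ∈ AddSubgroup.closure s) : f u ∈ W :=
  ((AddSubgroup.closure_le (W.comap f)).2 h) hu

theorem map_act (g : V →ₗ[F] V') (b : Matrix Pt Pt F) (u : Pt → V) :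
    (fun p => g (act b u p)) = act b fun p => g (u p) := by
  funext q
  simp [act]

theorem sum_e [Fintype ι] (P : Prob k F Pt ι Ω) : ∑ i, P.e i = 1 := by
  ext q p
  rw [Matrix.sum_apply, Finset.sum_eq_single (P.vt p) (fun i _ hi => P.e_neg q hi.symm) (by simp),
    P.e_pos q rfl]

theorem e_mul (P : Prob k F Pt ι Ω) (i : ι) : P.e i * P.e i = P.e i := by
  have := P.blk_eq i i 1
  rw [mul_one] at this
  rw [← this]
  ext q p
  by_cases h : P.vt p = i
  · rw [P.e_pos q h]
    by_cases h' : P.vt q = i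
    · exact P.blk_pos _ h h'
    · rw [P.blk_neg _ fun e => h' e.2, Matrix.one_apply_ne fun e : q = p => h' (e ▸ h)]
  · rw [P.e_neg q h, P.blk_neg _ fun e => h e.1]

theorem near_trans {P : Prob k F Pt ι Ω} {c c' : ℕ} {o o' o'' : Ω} (h : P.Near c o o')
    (h' : P.Near c' o' o'') : P.Near (c + c') o o'' := by
  obtain ⟨f, f0, fc, hf⟩ := h
  obtain ⟨g, g0, gc, hg⟩ := h'
  refine ⟨fun n => if n ≤ c then f n else g (n - c), by simpa using f0, ?_, fun n hn => ?_⟩
  · by_cases e : c' = 0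
    · subst e
      simp [fc, ← gc, g0]
    · have : ¬ c + c' ≤ c := by omega
      simp [this, gc]
  · by_cases e : n < c
    · simpa [e.le, Nat.succ_le_of_lt e] using hf n e
    · have h1 : (if n ≤ c then f n else g (n - c)) = g (n - c) := by
        split_ifs with e'
        · rw [show n = c by omega, fc, Nat.sub_self, g0]
        · rfl
      have h2 : ¬ n + 1 ≤ c := by omega
      simp only [h1, h2, if_false, show n + 1 - c = n - c + 1 by omega]
      exact hg _ (by omega)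

variable [Fintype Ω] {J Jf : Prob k F Pt ι Ω} {val : Set ι}

theorem e_eq (hV : Val J Jf val) (i : ι) : Jf.e i = J.e i := by
  simp only [Prob.e, hV.vt]

/-- The enlarged object. -/
def enl (hV : Val J Jf val) (M : Obj J V) : Obj Jf V where
  ε := M.ε
  orth := M.orth
  sum := M.sum
  U := AddSubgroup.closure {w | ∃ b ∈ Jf.B, ∃ u ∈ M.U, w = act b u}
  peak u hu := by
    induction hu using AddSubgroup.closure_induction with
    | mem w hw =>
      obtain ⟨b, hb, u, hu, rfl⟩ := hw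
      intro q
      simp only [act, map_sum, map_smul]
      refine Finset.sum_congr rfl fun p _ => ?_
      by_cases e : b q p = 0
      · simp [e]
      · rw [Jf.peak b hb q p e, hV.pk, M.peak u hu p]
    | zero => simp
    | add u v _ _ hu hv => intro p; simp [hu p, hv p]
    | neg u _ hu => intro p; simp [hu p]
  stab b hb u hu := by
    refine closure_act (actH b) ?_ hu
    rintro _ ⟨b', hb', u, hu, rfl⟩
    exact AddSubgroup.subset_closure ⟨_, Jf.B.mul_mem hb hb', u, hu, (act_mul _ _ _).symm⟩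

theorem le_enl (hV : Val J Jf val) (M : Obj J V) {u : Pt → V} (hu : u ∈ M.U) : u ∈ (enl hV M).U :=
  AddSubgroup.subset_closure ⟨1, Jf.B.one_mem, u, hu, (act_one u).symm⟩

theorem enl_nonval [Fintype ι] (hV : Val J Jf val) (M : Obj J V) {i : ι} (hi : i ∉ val)
    {u : Pt → V} (hu : u ∈ (enl hV M).U) : act (Jf.e i) u ∈ M.U := by
  refine closure_act (actH (Jf.e i)) ?_ hu
  rintro _ ⟨b, hb, u, hu, rfl⟩
  change act _ _ ∈ _
  rw [← act_mul, ← mul_one (Jf.e i * b), ← sum_e Jf, Finset.mul_sum, act_sum]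
  refine sum_mem fun j _ => M.stab _ ?_ u hu
  rw [← Jf.blk_eq]
  exact hV.same j i (fun h => hi h.2) _ (Jf.blk_mem hb j i)

theorem pk_val (hV : Val J Jf val) {p q : Pt} (hp : J.vt p ∈ val) (h : J.vt q = J.vt p) :
    J.pk q = J.pk p := by
  rw [← hV.pk]
  refine Jf.peak _ (hV.fat _ hp (Matrix.single q p 1) fun q' p' h' => ?_) q p (by simp)
  have : q = q' ∧ p = p' := by
    by_contra hc
    exact h' (Matrix.single_apply_of_ne _ _ _ _ _ hc)
  exact ⟨this.2 ▸ rfl, this.1 ▸ h⟩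

theorem key [Fintype ι] (hV : Val J Jf val) (M : Obj J V) {e : V →ₗ[F] V}
    (he : (enl hV M).IsHom (enl hV M) e) {A : Set ι} (hA : ((enl hV M).smd e he).Gen A) (i : ι)
    (hi : i ∈ val → ∀ p q, J.vt p ∈ A → J.vt p ∈ val → J.vt q = i → J.pk q ≠ J.pk p)
    {u : Pt → V} (hu : u ∈ (enl hV M).U) : act (Jf.e i) (fun p => e (u p)) ∈ M.U := by
  by_cases hv : i ∈ val
  swap
  · exact enl_nonval hV M hv (he.2 u hu)
  have h1 := hA (fun p => ⟨e (u p), u p, rfl⟩) (he.2 u hu)
  refine closure_act (W := M.U) ((actH (Jf.e i)).comp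
    ((LinearMap.range e).subtype.toAddMonoidHom.compLeft Pt)) ?_ h1
  rintro _ ⟨b, hb, j, hj, w, hw, rfl⟩
  change act (Jf.e i) (fun p => (LinearMap.range e).subtype (act (b * Jf.e j) w p)) ∈ _
  rw [map_act, ← act_mul, ← mul_assoc]
  by_cases hj' : j ∈ val
  · have : Jf.e i * b * Jf.e j = 0 := by
      rw [← Jf.blk_eq]
      ext q p
      by_contra hc
      obtain ⟨⟨h2, h3⟩, h4⟩ := mask_ne hc
      rw [hV.vt] at h2 h3
      exact hi hv p q (h2 ▸ hj) (h2 ▸ hj') h3 (hV.pk ▸ Jf.peak b hb q p h4)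
    rw [this, act_zero]
    exact zero_mem _
  · rw [← e_mul Jf j, ← mul_assoc, act_mul, ← Jf.blk_eq]
    exact M.stab _ (hV.same j i (fun h => hj' h.1) _ (Jf.blk_mem hb j i)) _
      (enl_nonval hV M hj' hw)

end ValSmallA

open ValSmallA in
theorem valSmall : SDec → SMor → SValDir → SValSmall := by
  intro hD hM hVD k F _ _ _ _ Pt ι Ω _ _ _ _ J Jf val S _ h c hR hV hS hG V _ _ _ M hI o o' ho ho'
  classical
  obtain ⟨n, e, he, ei, eo, es, hZ⟩ := hD k F Pt ι Ω Jf V (enl hV M)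
  choose Z Zε Zh Zg using fun s => (hM k F Pt ι Ω Jf S (hVD k F Pt ι Ω J Jf val S hR hV).1).2 h _
    ((enl hV M).smd (e s) (he s))
  have ZI : ∀ s, (Z s).Indec := fun s => ⟨(hZ s).1, fun g hg => (hZ s).2 g ((Zh s g).2 hg)⟩
  choose A hA hA' using fun s => hG _ (Z s) (ZI s)
  let Q : Fin n → Ω → Prop := fun s o => ∃ p, J.vt p ∈ A s ∧ J.vt p ∈ val ∧ J.pk p = o
  have rep : ∀ s o, Q s o → ∃ p : {p // S p}, J.vt p.1 ∈ A s ∧ J.vt p.1 ∈ val ∧ J.pk p.1 = o := by
    rintro s _ ⟨p, h1, h2, rfl⟩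
    obtain ⟨q, ⟨h3, h4⟩, -⟩ := hR.2 _ h2
    exact ⟨⟨q, h4⟩, h3 ▸ h1, h3 ▸ h2, pk_val hV h2 h3⟩
  have Qu : ∀ s o o', Q s o → Q s o' → o = o' ∧ (Z s).ε o ≠ 0 := by
    intro s o o' h1 h2
    obtain ⟨p, p1, p2, rfl⟩ := rep _ _ h1
    obtain ⟨q, q1, q2, rfl⟩ := rep _ _ h2
    exact hA' s p q p1 q1 p2 q2
  have supp : ∀ o, M.ε o ≠ 0 → ∃ s, (Z s).ε o ≠ 0 := by
    intro o ho
    by_contra hc
    refine ho (LinearMap.ext fun x => ?_)
    have h1 : x = ∑ s, e s x := by rw [← LinearMap.sum_apply, es]; rfl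
    rw [h1, map_sum]
    refine Finset.sum_eq_zero fun s _ => ?_
    have h2 : (Z s).ε o = 0 := by_contra fun h' => hc ⟨s, h'⟩
    rw [Zε] at h2
    exact congrArg Subtype.val (LinearMap.congr_fun h2 ⟨e s x, x, rfl⟩)
  have ne : ∀ s, e s ≠ 0 := fun s h0 => by
    have := (hZ s).1
    obtain ⟨⟨_, x, rfl⟩, hx⟩ := exists_ne (0 : LinearMap.range (e s))
    exact hx (Subtype.ext (by simp [h0]))
  have near : ∀ s o o', (Z s).ε o ≠ 0 → (Z s).ε o' ≠ 0 → J.Near c o o' := by
    intro s o o' h1 h2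
    obtain ⟨f, f0, fc, hf⟩ := hS _ (Z s) (ZI s) o o' h1 h2
    refine ⟨f, f0, fc, fun m hm => (hf m hm).imp id ?_⟩
    rintro ⟨p, q, h3, h4, h5⟩
    exact ⟨p.1, q.1, hV.vt ▸ h3, hV.pk ▸ h4, hV.pk ▸ h5⟩
  obtain ⟨s₀, hs₀⟩ := supp o ho
  obtain ⟨s₁, hs₁⟩ := supp o' ho'
  let P : Fin n → Prop := fun s => s = s₀ ∨ ∃ o, Q s o ∧ Q s₀ o
  have part : ∀ (t : Finset (Fin n)) (i : ι), (i ∈ val → ∀ s ∈ t, ∀ q, J.vt q = i → ¬ Q s (J.pk q)) →
      ∀ u ∈ M.U, act (Jf.e i) (fun p => (∑ s ∈ t, e s) (u p)) ∈ M.U := by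
    intro t i hi u hu
    have : (fun p => (∑ s ∈ t, e s) (u p)) = ∑ s ∈ t, fun p => e s (u p) := by
      funext p; simp
    rw [this]
    change actH _ _ ∈ _
    rw [map_sum]
    exact sum_mem fun s hs => key hV M (he s) (Zg s _ (hA s)) i
      (fun hv p q h1 h2 h3 h4 => hi hv s hs q h3 ⟨p, h1, h2, h4.symm⟩) (le_enl hV M hu)
  have hE : M.IsHom M (∑ s ∈ Finset.univ.filter P, e s) := by
    refine ⟨fun o => ?_, fun u hu => ?_⟩
    · refine LinearMap.ext fun x => ?_
      simp only [LinearMap.comp_apply, LinearMap.sum_apply, map_sum]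
      exact Finset.sum_congr rfl fun s _ => LinearMap.congr_fun ((he s).1 o) x
    rw [← act_one (F := F) fun p => (∑ s ∈ Finset.univ.filter P, e s) (u p), ← sum_e Jf, act_sum]
    refine sum_mem fun i _ => ?_
    by_cases hi : ∃ q, J.vt q = i ∧ Q s₀ (J.pk q)
    · obtain ⟨q, hq, hQ⟩ := hi
      have h1 := part (Finset.univ.filter fun s => ¬ P s) i (fun hv s hs q' hq' hQ' =>
        (Finset.mem_filter.1 hs).2 (Or.inr ⟨_, hQ', by
          rwa [pk_val hV (hq ▸ hv) (hq'.trans hq.symm)]⟩)) u hu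
      have h2 := M.stab _ (J.e_mem i) u hu
      rw [← e_eq hV] at h2
      have h3 : (fun p => (∑ s ∈ Finset.univ.filter P, e s) (u p)) =
          u - fun p => (∑ s ∈ Finset.univ.filter fun s => ¬ P s, e s) (u p) := by
        funext p
        rw [Pi.sub_apply, eq_sub_iff_add_eq, ← LinearMap.add_apply,
          Finset.sum_filter_add_sum_filter_not, es]
        rfl
      rw [h3]
      change actH _ _ ∈ _
      rw [map_sub]
      exact sub_mem h2 h1
    · refine part _ i (fun hv s hs q hq hQ => hi ⟨q, hq, ?_⟩) u hu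
      rcases (Finset.mem_filter.1 hs).2 with rfl | ⟨o, h1, h2⟩
      · exact hQ
      · rwa [(Qu s _ _ hQ h1).1]
  have mul : ∀ s, (∑ s ∈ Finset.univ.filter P, e s) ∘ₗ e s = if P s then e s else 0 := by
    intro s
    refine LinearMap.ext fun x => ?_
    rw [LinearMap.comp_apply, LinearMap.sum_apply, Finset.sum_filter, Finset.sum_eq_single s
      (fun t _ ht => by simpa using fun _ => LinearMap.congr_fun (eo t s ht) x) (by simp)]
    split_ifs
    · exact LinearMap.congr_fun (ei s) x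
    · rfl
  have hid := (hI.2 _ hE (by
    refine LinearMap.ext fun x => ?_
    rw [LinearMap.comp_apply, LinearMap.sum_apply _ _ x, map_sum]
    refine Finset.sum_congr rfl fun s hs => ?_
    have := LinearMap.congr_fun (mul s) x
    rwa [if_pos (Finset.mem_filter.1 hs).2] at this)).resolve_left fun h0 => by
      have := mul s₀
      rw [h0, if_pos (Or.inl rfl), LinearMap.zero_comp] at this
      exact ne s₀ this.symm
  have hP : P s₁ := by
    by_contra hc
    have := mul s₁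
    rw [hid, if_neg hc, LinearMap.id_comp] at this
    exact ne s₁ this
  rw [two_mul]
  rcases hP with rfl | ⟨o₁, h1, h2⟩
  · exact near_trans (near _ _ _ hs₀ hs₁) (near _ _ _ hs₁ hs₁)
  · exact near_trans (near _ _ _ hs₀ (Qu _ _ _ h2 h2).2) (near _ _ _ (Qu _ _ _ h1 h1).2 hs₁)

end Pool.Agent.MP_bd94e8_al.H89
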